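import Mathlib

/-!
# Deterministic partially blind and deterministic general counter machines

For `c ≥ 1` the deterministic quasi-realtime multicounter machines with at most `c` reversals are
strictly stronger than the partially blind ones; for `c = 0` they are equally strong.

The language `{a^n b^m : n ≤ m}` is accepted by a deterministic real time machine with one counter
and one reversal. Suppose that it is accepted by a deterministic partially blind machine. Let
`(q_n, x_n)` be the state and the counters at the moment when the head leaves `a^n`. There are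
`n < n'` such that `q_n = q_n'` and either `x_n = x_n'` (then `a^n' b^n` is accepted) or
`x_n ≤ x_n'` and some counter of `x_n'` is much larger than in `x_n`; in the latter case the
computation on `a^n' b^n'` has to follow the accepting computation on `a^n b^n'`, since the machine
is partially blind and deterministic, and it arrives at the end of the word with counters which are
too large.
-/

set_option autoImplicit false

namespace Pool.Agent.Results.MP_24384b_lc.EqualOnlyForZero

open List

/-- A one-way machine with `k` counters, states `Q` and input alphabet `A`.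
`move q s z q' h v` means: in the state `q`, when the scanned symbol is `s` (`none` if the head has
passed the last letter of the input word) and the counters which are zero are those `i` with
`z i = true`, the machine may go to the state `q'`, add `v i` (which is `-1`, `0` or `1`) to the
counter `i`, for all `i`, and move the head to the right if `h = true` (this is not possible if the
head has passed the last letter). -/
structure Machine (k : ℕ) (Q A : Type) where
  start : Q
  final : Set Q
  move : Q → Option A → (Fin k → Bool) → Q → Bool → (Fin k → ℤ) → Prop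
  small : ∀ q s z q' h v, move q s z q' h v → ∀ i, v i = -1 ∨ v i = 0 ∨ v i = 1
  stop : ∀ q z q' h v, move q none z q' h v → h = false

/-- A configuration: the state, the part of the input word which begins at the scanned letter, and
the counters. -/
structure Config (k : ℕ) (Q A : Type) where
  state : Q
  rest : List A
  count : Fin k → ℕ

variable {k : ℕ} {Q A : Type}

/-- `c'` is obtained from the configuration `c` by a move of `M` which adds `v i` to the
counter `i`, for all `i`. As the counters of `c'` are natural numbers, a move which would make a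
counter negative is impossible. -/
def Step (M : Machine k Q A) (c : Config k Q A) (v : Fin k → ℤ) (c' : Config k Q A) : Prop :=
  (∀ i, (c'.count i : ℤ) = c.count i + v i) ∧
    ((M.move c.state c.rest.head? (fun i => decide (c.count i = 0)) c'.state false v ∧
        c'.rest = c.rest) ∨
      (M.move c.state c.rest.head? (fun i => decide (c.count i = 0)) c'.state true v ∧
        c'.rest = c.rest.tail))

/-- A computation from `c` to `c'`; the list records the changes of the counters. -/
inductive Run (M : Machine k Q A) : Config k Q A → List (Fin k → ℤ) → Config k Q A → Prop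
  | nil (c : Config k Q A) : Run M c [] c
  | cons {c c' c'' : Config k Q A} {v : Fin k → ℤ} {l : List (Fin k → ℤ)}
      (h : Step M c v c') (h' : Run M c' l c'') : Run M c (v :: l) c''

/-- The initial configuration for the input word `w`. -/
def initial (M : Machine k Q A) (w : List A) : Config k Q A := ⟨M.start, w, fun _ => 0⟩

/-- The number of reversals in the sequence `l` of the changes of one counter: omit the zeros and
count the consecutive terms which are different. -/
def reversals (l : List ℤ) : ℕ :=
  ((l.filter (· ≠ 0)).zip (l.filter (· ≠ 0)).tail).countP (fun p => p.1 ≠ p.2)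

/-- The number of reversals of a computation with the changes `l`. -/
def totalReversals (l : List (Fin k → ℤ)) : ℕ := ∑ i, reversals (l.map fun v => v i)

/-- `L_{Rc}(M)`: the words which have an accepting computation with at most `c` reversals. A
computation is accepting if it ends after the whole word has been read, in a final state, with all
counters equal to zero. -/
def langR (c : ℕ) (M : Machine k Q A) : Set (List A) :=
  {w | ∃ q ∈ M.final, ∃ l, Run M (initial M w) l ⟨q, [], fun _ => 0⟩ ∧ totalReversals l ≤ c}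

/-- In every configuration at most one move is possible. -/
def Deterministic (M : Machine k Q A) : Prop :=
  ∀ c v₁ c₁ v₂ c₂, Step M c v₁ c₁ → Step M c v₂ c₂ → v₁ = v₂ ∧ c₁ = c₂

/-- There is a constant `d` such that every stretch of any computation during which the head stays
on the same cell has length at most `d`. -/
def QuasiRealtime (M : Machine k Q A) : Prop :=
  ∃ d : ℕ, ∀ w l c l' c', Run M (initial M w) l c → Run M c l' c' → c'.rest = c.rest →
    l'.length ≤ d

/-- The possible moves do not depend on which counters are zero (except that a counter must not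
become negative). -/
def PartiallyBlind (M : Machine k Q A) : Prop :=
  ∀ q s z z' q' h v, M.move q s z q' h v → M.move q s z' q' h v

/-- The class `L_{Rc}(QR-DCOUNTER)` of languages over `A`. -/
def dcounter (c : ℕ) (A : Type) : Set (Set (List A)) :=
  {L | ∃ (k : ℕ) (Q : Type) (_ : Finite Q) (M : Machine k Q A),
    Deterministic M ∧ QuasiRealtime M ∧ L = langR c M}

/-- The class `L_{Rc}(QR-DPBLIND)` of languages over `A`. -/
def dpblind (c : ℕ) (A : Type) : Set (Set (List A)) :=
  {L | ∃ (k : ℕ) (Q : Type) (_ : Finite Q) (M : Machine k Q A),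
    PartiallyBlind M ∧ Deterministic M ∧ QuasiRealtime M ∧ L = langR c M}

/-! ### General lemmas -/

theorem Run.append {M : Machine k Q A} {c c' c'' : Config k Q A} {l l' : List (Fin k → ℤ)}
    (h : Run M c l c') (h' : Run M c' l' c'') : Run M c (l ++ l') c'' := by
  induction h with
  | nil => exact h'
  | cons s _ ih => exact Run.cons s (ih h')

theorem Run.split {M : Machine k Q A} {c c'' : Config k Q A} {l l' : List (Fin k → ℤ)}
    (h : Run M c (l ++ l') c'') : ∃ c', Run M c l c' ∧ Run M c' l' c'' := by
  induction l generalizing c with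
  | nil => exact ⟨c, Run.nil c, h⟩
  | cons v l ih =>
    cases h with
    | cons s h =>
      obtain ⟨c', h1, h2⟩ := ih h
      exact ⟨c', Run.cons s h1, h2⟩

theorem Run.small {M : Machine k Q A} {c c' : Config k Q A} {l : List (Fin k → ℤ)}
    (h : Run M c l c') : ∀ v ∈ l, ∀ i, v i = -1 ∨ v i = 0 ∨ v i = 1 := by
  induction h with
  | nil => simp
  | cons s _ ih =>
    intro v hv
    rcases List.mem_cons.1 hv with rfl | hv
    · rcases s.2 with h | h
      · exact M.small _ _ _ _ _ _ h.1
      · exact M.small _ _ _ _ _ _ h.1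
    · exact ih v hv

theorem Run.count {M : Machine k Q A} {c c' : Config k Q A} {l : List (Fin k → ℤ)}
    (h : Run M c l c') (i : Fin k) :
    (c.count i : ℤ) ≤ c'.count i + l.length ∧ (c'.count i : ℤ) ≤ c.count i + l.length := by
  induction h with
  | nil => simp
  | cons s _ ih =>
    have h1 := s.1 i
    have h2 : ∀ j, _ := fun j => (Run.small (Run.cons s (Run.nil _))) _ (List.mem_singleton.2 rfl) j
    have h3 := h2 i
    rw [List.length_cons]
    push_cast
    rcases h3 with h3 | h3 | h3 <;> omega

theorem Run.compare {M : Machine k Q A} (hM : Deterministic M) {c c₁ c₂ : Config k Q A}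
    {l₁ l₂ : List (Fin k → ℤ)} (h₁ : Run M c l₁ c₁) (h₂ : Run M c l₂ c₂) :
    (∃ l₃, l₂ = l₁ ++ l₃ ∧ Run M c₁ l₃ c₂) ∨ (∃ l₃, l₁ = l₂ ++ l₃ ∧ Run M c₂ l₃ c₁) := by
  induction h₁ generalizing l₂ with
  | nil c => exact Or.inl ⟨l₂, rfl, h₂⟩
  | cons s h ih =>
    cases h₂ with
    | nil => exact Or.inr ⟨_, rfl, Run.cons s h⟩
    | cons s' h' =>
      obtain ⟨rfl, rfl⟩ := hM _ _ _ _ _ s s'
      rcases ih h' with ⟨l₃, rfl, h3⟩ | ⟨l₃, rfl, h3⟩
      · exact Or.inl ⟨l₃, rfl, h3⟩
      · exact Or.inr ⟨l₃, rfl, h3⟩

theorem Run.nil_eq {M : Machine k Q A} {c c' : Config k Q A} {l : List (Fin k → ℤ)}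
    (h : Run M c l c') (hl : l = []) : c = c' := by
  cases h with
  | nil => rfl
  | cons => exact absurd hl (by simp)

theorem Run.det {M : Machine k Q A} (hM : Deterministic M) {c c₁ c₂ : Config k Q A}
    {l : List (Fin k → ℤ)} (h₁ : Run M c l c₁) (h₂ : Run M c l c₂) : c₁ = c₂ := by
  rcases h₁.compare hM h₂ with ⟨l₃, h3, h4⟩ | ⟨l₃, h3, h4⟩
  · exact h4.nil_eq (by simpa using h3.symm)
  · exact (h4.nil_eq (by simpa using h3.symm)).symm

/-- computations of a partially blind machine can be repeated with larger counters -/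
theorem Run.shift {M : Machine k Q A} (hM : PartiallyBlind M) {c c' : Config k Q A}
    {l : List (Fin k → ℤ)} (h : Run M c l c') (y : Fin k → ℕ) :
    Run M ⟨c.state, c.rest, fun i => c.count i + y i⟩ l
      ⟨c'.state, c'.rest, fun i => c'.count i + y i⟩ := by
  induction h with
  | nil => exact Run.nil _
  | cons s _ ih =>
    refine Run.cons ⟨fun i => ?_, ?_⟩ ih
    · have := s.1 i
      push_cast
      omega
    · rcases s.2 with h | h
      · exact Or.inl ⟨hM _ _ _ _ _ _ _ h.1, h.2⟩
      · exact Or.inr ⟨hM _ _ _ _ _ _ _ h.1, h.2⟩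

/-- A computation which reads the word `s` (and nothing else). -/
inductive Pre (M : Machine k Q A) :
    Q → List A → (Fin k → ℕ) → List (Fin k → ℤ) → Q → (Fin k → ℕ) → Prop
  | nil (q : Q) (x : Fin k → ℕ) : Pre M q [] x [] q x
  | stay {q q' q'' : Q} {a : A} {s : List A} {x x' x'' : Fin k → ℕ} {v : Fin k → ℤ}
      {l : List (Fin k → ℤ)} (hx : ∀ i, (x' i : ℤ) = x i + v i)
      (h : M.move q (some a) (fun i => decide (x i = 0)) q' false v)
      (h' : Pre M q' (a :: s) x' l q'' x'') : Pre M q (a :: s) x (v :: l) q'' x''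
  | go {q q' q'' : Q} {a : A} {s : List A} {x x' x'' : Fin k → ℕ} {v : Fin k → ℤ}
      {l : List (Fin k → ℤ)} (hx : ∀ i, (x' i : ℤ) = x i + v i)
      (h : M.move q (some a) (fun i => decide (x i = 0)) q' true v)
      (h' : Pre M q' s x' l q'' x'') : Pre M q (a :: s) x (v :: l) q'' x''

theorem Pre.run {M : Machine k Q A} {q q' : Q} {s : List A} {x x' : Fin k → ℕ}
    {l : List (Fin k → ℤ)} (h : Pre M q s x l q' x') (t : List A) :
    Run M ⟨q, s ++ t, x⟩ l ⟨q', t, x'⟩ := by
  induction h with
  | nil => exact Run.nil _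
  | @stay q q' q'' a s x x' x'' v l hx h _ ih =>
    have s1 : Step M ⟨q, a :: s ++ t, x⟩ v ⟨q', a :: s ++ t, x'⟩ := ⟨hx, Or.inl ⟨h, rfl⟩⟩
    exact Run.cons s1 ih
  | @go q q' q'' a s x x' x'' v l hx h _ ih =>
    have s1 : Step M ⟨q, a :: s ++ t, x⟩ v ⟨q', s ++ t, x'⟩ := ⟨hx, Or.inr ⟨h, rfl⟩⟩
    exact Run.cons s1 ih

theorem exists_pre {M : Machine k Q A} {c c' : Config k Q A} {l : List (Fin k → ℤ)}
    (h : Run M c l c') : ∀ (s t : List A), c.rest = s ++ t → c'.rest.length ≤ t.length →
    ∃ l₁ l₂ q x, l = l₁ ++ l₂ ∧ Pre M c.state s c.count l₁ q x ∧ Run M ⟨q, t, x⟩ l₂ c' := by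
  induction h with
  | nil c =>
    intro s t hs ht
    have : s = [] := by
      have h1 := congrArg List.length hs
      rw [List.length_append] at h1
      exact List.eq_nil_of_length_eq_zero (by omega)
    subst this
    rw [List.nil_append] at hs
    subst hs
    exact ⟨[], [], c.state, c.count, rfl, Pre.nil _ _, Run.nil _⟩
  | @cons c c' c'' v l st h ih =>
    intro s t hs ht
    cases s with
    | nil =>
      rw [List.nil_append] at hs
      subst hs
      exact ⟨[], v :: l, c.state, c.count, rfl, Pre.nil _ _, Run.cons st h⟩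
    | cons a s =>
      have hh : c.rest.head? = some a := by rw [hs]; rfl
      have htl : c.rest.tail = s ++ t := by rw [hs]; rfl
      rcases st.2 with ⟨hm, hr⟩ | ⟨hm, hr⟩
      · rw [hh] at hm
        obtain ⟨l₁, l₂, q, x, rfl, h1, h2⟩ := ih (a :: s) t (hr.trans hs) ht
        exact ⟨v :: l₁, l₂, q, x, rfl, Pre.stay st.1 hm h1, h2⟩
      · rw [hh] at hm
        obtain ⟨l₁, l₂, q, x, rfl, h1, h2⟩ := ih s t (hr.trans htl) ht
        exact ⟨v :: l₁, l₂, q, x, rfl, Pre.go st.1 hm h1, h2⟩

theorem Pre.det {M : Machine k Q A} (hM : Deterministic M) {q q₁ q₂ : Q} {s : List A}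
    {x x₁ x₂ : Fin k → ℕ} {l₁ l₂ : List (Fin k → ℤ)} (h₁ : Pre M q s x l₁ q₁ x₁)
    (h₂ : Pre M q s x l₂ q₂ x₂) : l₁ = l₂ ∧ q₁ = q₂ ∧ x₁ = x₂ := by
  induction h₁ generalizing l₂ with
  | nil => cases h₂; exact ⟨rfl, rfl, rfl⟩
  | @stay q q' q'' a s x x' x'' v l hx h h' ih =>
    have s1 : Step M ⟨q, a :: s, x⟩ v ⟨q', a :: s, x'⟩ := ⟨hx, Or.inl ⟨h, rfl⟩⟩
    cases h₂ with
    | stay hy g g' =>
      have s2 : Step M ⟨q, a :: s, x⟩ _ ⟨_, a :: s, _⟩ := ⟨hy, Or.inl ⟨g, rfl⟩⟩
      obtain ⟨rfl, he⟩ := hM _ _ _ _ _ s1 s2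
      injection he with e1 e2 e3
      subst e1 e3
      obtain ⟨rfl, h2⟩ := ih g'
      exact ⟨rfl, h2⟩
    | go hy g g' =>
      have s2 : Step M ⟨q, a :: s, x⟩ _ ⟨_, s, _⟩ := ⟨hy, Or.inr ⟨g, rfl⟩⟩
      obtain ⟨rfl, he⟩ := hM _ _ _ _ _ s1 s2
      injection he with e1 e2 e3
      exact absurd (congrArg List.length e2) (by simp)
  | @go q q' q'' a s x x' x'' v l hx h h' ih =>
    have s1 : Step M ⟨q, a :: s, x⟩ v ⟨q', s, x'⟩ := ⟨hx, Or.inr ⟨h, rfl⟩⟩
    cases h₂ with
    | stay hy g g' =>
      have s2 : Step M ⟨q, a :: s, x⟩ _ ⟨_, a :: s, _⟩ := ⟨hy, Or.inl ⟨g, rfl⟩⟩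
      obtain ⟨rfl, he⟩ := hM _ _ _ _ _ s1 s2
      injection he with e1 e2 e3
      exact absurd (congrArg List.length e2) (by simp)
    | go hy g g' =>
      have s2 : Step M ⟨q, a :: s, x⟩ _ ⟨_, s, _⟩ := ⟨hy, Or.inr ⟨g, rfl⟩⟩
      obtain ⟨rfl, he⟩ := hM _ _ _ _ _ s1 s2
      injection he with e1 e2 e3
      subst e1 e3
      obtain ⟨rfl, h2⟩ := ih g'
      exact ⟨rfl, h2⟩

/-! ### Reversals -/

/-- the number of changes in a list -/
def alt (m : List ℤ) : ℕ := (m.zip m.tail).countP (fun p => p.1 ≠ p.2)

theorem alt_cons_cons (a b : ℤ) (m : List ℤ) :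
    alt (a :: b :: m) = alt (b :: m) + if a ≠ b then 1 else 0 := by
  simp [alt, List.countP_cons]

theorem alt_append (m m' t : List ℤ) (h : alt m = alt m') (h' : m.getLast? = m'.getLast?) :
    alt (m ++ t) = alt (m' ++ t) := by
  have key : ∀ (m : List ℤ) (a : ℤ) (t : List ℤ),
      alt (m ++ a :: t) = alt (m ++ [a]) + alt (a :: t) := by
    intro m
    induction m with
    | nil => intro a t; simp [alt]
    | cons b m ih =>
      intro a t
      cases m with
      | nil =>
        simp only [List.cons_append, List.nil_append]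
        rw [alt_cons_cons, alt_cons_cons]
        simp [alt]
        ring
      | cons d m =>
        have h1 := ih a t
        simp only [List.cons_append] at h1 ⊢
        rw [alt_cons_cons, alt_cons_cons, h1]
        ring
  rcases List.eq_nil_or_concat m with rfl | ⟨n, a, rfl⟩
  · have : m' = [] := by
      rw [List.getLast?_nil] at h'
      exact List.getLast?_eq_none_iff.1 h'.symm
    rw [this]
  · rw [List.concat_eq_append] at h h' ⊢
    rw [List.getLast?_append, List.getLast?_singleton] at h'
    rcases List.eq_nil_or_concat m' with rfl | ⟨n', a', rfl⟩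
    · simp at h'
    · rw [List.concat_eq_append] at h h' ⊢
      rw [List.getLast?_append, List.getLast?_singleton] at h'
      simp only [Option.some_or, Option.some.injEq] at h'
      subst h'
      rw [List.append_assoc, List.append_assoc, List.singleton_append, key, key n', h]

/-- the data about the reversals -/
def lastSign (l : List ℤ) : Option ℤ := (l.filter (· ≠ 0)).getLast?

theorem reversals_append {l l' t : List ℤ} (h : reversals l = reversals l')
    (h' : lastSign l = lastSign l') : reversals (l ++ t) = reversals (l' ++ t) := by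
  unfold reversals
  rw [List.filter_append, List.filter_append]
  exact alt_append _ _ _ h h'

theorem reversals_le_append (l t : List ℤ) : reversals l ≤ reversals (l ++ t) := by
  unfold reversals
  rw [List.filter_append]
  generalize l.filter (· ≠ 0) = m
  generalize t.filter (· ≠ 0) = n
  change alt m ≤ alt (m ++ n)
  induction m with
  | nil => simp [alt]
  | cons a m ih =>
    cases m with
    | nil => simp [alt]
    | cons b m =>
      simp only [List.cons_append] at ih ⊢
      rw [alt_cons_cons, alt_cons_cons]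
      omega

theorem totalReversals_append {l l' t : List (Fin k → ℤ)}
    (h : ∀ i, reversals (l.map fun v => v i) = reversals (l'.map fun v => v i))
    (h' : ∀ i, lastSign (l.map fun v => v i) = lastSign (l'.map fun v => v i)) :
    totalReversals (l ++ t) = totalReversals (l' ++ t) := by
  unfold totalReversals
  refine Finset.sum_congr rfl fun i _ => ?_
  rw [List.map_append, List.map_append]
  exact reversals_append (h i) (h' i)

theorem totalReversals_le_append (l t : List (Fin k → ℤ)) :
    totalReversals l ≤ totalReversals (l ++ t) := by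
  unfold totalReversals
  refine Finset.sum_le_sum fun i _ => ?_
  rw [List.map_append]
  exact reversals_le_append _ _

theorem lastSign_mem {l : List ℤ} (h : ∀ v ∈ l, v = -1 ∨ v = 0 ∨ v = 1) :
    lastSign l ∈ ({none, some 1, some (-1)} : Set (Option ℤ)) := by
  rcases hl : lastSign l with _ | a
  · simp
  · have h1 : a ∈ l.filter (· ≠ 0) := List.mem_of_getLast? hl
    rw [List.mem_filter] at h1
    have h2 := h a h1.1
    have h3 : a ≠ 0 := by simpa using h1.2
    rcases h2 with h2 | h2 | h2
    · subst h2; simp
    · exact absurd h2 h3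
    · subst h2; simp

/-! ### The language `a^n b^m`, `n ≤ m` -/

/-- `{a^n b^m : n ≤ m}`, with `a = false` and `b = true` -/
def Lang : Set (List Bool) := {w | ∃ n m, n ≤ m ∧ w = replicate n false ++ replicate m true}

theorem mem_Lang {n m : ℕ} : replicate n false ++ replicate m true ∈ Lang ↔ n ≤ m := by
  constructor
  · rintro ⟨n', m', h, e⟩
    have h1 := congrArg (List.count false) e
    have h2 := congrArg (List.count true) e
    simp [List.count_append, List.count_replicate] at h1 h2
    omega
  · exact fun h => ⟨n, m, h, rfl⟩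

theorem not_blind {k : ℕ} {Q : Type} [Finite Q] (M : Machine k Q Bool) (hB : PartiallyBlind M)
    (hD : Deterministic M) (hR : QuasiRealtime M) (c : ℕ) : Lang ≠ langR c M := by
  intro hL
  obtain ⟨d, hd⟩ := hR
  -- accepting computations
  have acc : ∀ n m, n ≤ m → ∃ l₁ l₂ q x, Pre M M.start (replicate n false) (fun _ => 0) l₁ q x ∧
      (∃ f ∈ M.final, Run M ⟨q, replicate m true, x⟩ l₂ ⟨f, [], fun _ => 0⟩) ∧
      totalReversals (l₁ ++ l₂) ≤ c := by
    intro n m hnm
    have h1 : replicate n false ++ replicate m true ∈ langR c M := by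
      rw [← hL]
      exact mem_Lang.2 hnm
    obtain ⟨f, hf, l, hl, hr⟩ := h1
    obtain ⟨l₁, l₂, q, x, rfl, h2, h3⟩ :=
      exists_pre hl (replicate n false) (replicate m true) rfl (Nat.zero_le _)
    exact ⟨l₁, l₂, q, x, h2, ⟨f, hf, h3⟩, hr⟩
  have acc0 : ∀ n, ∃ l₁ q x, Pre M M.start (replicate n false) (fun _ => 0) l₁ q x ∧
      totalReversals l₁ ≤ c := by
    intro n
    obtain ⟨l₁, l₂, q, x, h1, -, h2⟩ := acc n n le_rfl
    exact ⟨l₁, q, x, h1, (totalReversals_le_append _ _).trans h2⟩
  choose l q x hpre hrev using acc0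
  have acc' : ∀ n m, n ≤ m → ∃ l₂, ∃ f ∈ M.final,
      Run M ⟨q n, replicate m true, x n⟩ l₂ ⟨f, [], fun _ => 0⟩ ∧
        totalReversals (l n ++ l₂) ≤ c := by
    intro n m hnm
    obtain ⟨l₁, l₂, q', x', h1, ⟨f, hf, h2⟩, h3⟩ := acc n m hnm
    obtain ⟨rfl, rfl, rfl⟩ := h1.det hD (hpre n)
    exact ⟨l₂, f, hf, h2, h3⟩
  -- the data
  have hrevi : ∀ n i, reversals ((l n).map fun v => v i) ≤ c := by
    intro n i
    refine le_trans ?_ (hrev n)
    unfold totalReversals
    exact Finset.single_le_sum (f := fun i => reversals ((l n).map fun v => v i))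
      (fun _ _ => Nat.zero_le _) (Finset.mem_univ i)
  have hsmall : ∀ n i, ∀ v ∈ (l n).map (fun v => v i), v = -1 ∨ v = 0 ∨ v = 1 := by
    intro n i v hv
    obtain ⟨u, hu, rfl⟩ := List.mem_map.1 hv
    have h1 := (hpre n).run []
    exact h1.small u hu i
  let D := Q × (Fin k → Fin (c + 1)) × (Fin k → ({none, some 1, some (-1)} : Set (Option ℤ)))
  have : Finite ({none, some 1, some (-1)} : Set (Option ℤ)) := Set.toFinite _
  have hfinD : Finite D := inferInstance
  let g : ℕ → D := fun n => (q n, fun i => ⟨reversals ((l n).map fun v => v i),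
    Nat.lt_succ_of_le (hrevi n i)⟩, fun i => ⟨lastSign ((l n).map fun v => v i),
      lastSign_mem (hsmall n i)⟩)
  obtain ⟨δ, hδ⟩ := Finite.exists_infinite_fiber g
  have hinf : (g ⁻¹' {δ}).Infinite := Set.infinite_coe_iff.1 hδ
  let e : ℕ → ℕ := Nat.nth (fun n => n ∈ g ⁻¹' {δ})
  have he : StrictMono e := Nat.nth_strictMono hinf
  have heδ : ∀ n, g (e n) = δ := fun n => Nat.nth_mem_of_infinite hinf n
  obtain ⟨r, hr⟩ := (Set.isPWO_of_wellQuasiOrderedLE (Set.univ : Set (Fin k → ℕ))).exists_monotone_subseq
    (f := fun n => x (e n)) (fun _ => Set.mem_univ _)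
  have hr' : ∀ i j, i ≤ j → ∀ t, x (e (r i)) t ≤ x (e (r j)) t := fun i j hij t => hr hij t
  have hqeq : ∀ i j, q (e i) = q (e j) := fun i j => congrArg Prod.fst ((heδ i).trans (heδ j).symm)
  have hreveq : ∀ i j t, reversals ((l (e i)).map fun v => v t) =
      reversals ((l (e j)).map fun v => v t) := by
    intro i j t
    have h1 := congrArg (fun z : D => (z.2.1 t).1) ((heδ i).trans (heδ j).symm)
    exact h1
  have hlasteq : ∀ i j t, lastSign ((l (e i)).map fun v => v t) =
      lastSign ((l (e j)).map fun v => v t) := by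
    intro i j t
    have h1 := congrArg (fun z : D => (z.2.2 t).1) ((heδ i).trans (heδ j).symm)
    exact h1
  by_cases hbd : ∃ j t, x (e (r 0)) t + d < x (e (r j)) t
  · -- some counter is large
    obtain ⟨j, t, hjt⟩ := hbd
    set n := e (r 0) with hn
    set n' := e (r j) with hn'
    have hle : ∀ i, x n i ≤ x n' i := hr' 0 j (Nat.zero_le j)
    have hnn : n ≤ n' := he.monotone (r.monotone (Nat.zero_le j))
    obtain ⟨l₂, f, hf, h1, -⟩ := acc' n n' hnn
    obtain ⟨l₂', f', hf', h1', -⟩ := acc' n' n' le_rfl
    have hq : q n = q n' := hqeq _ _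
    have hsh := h1.shift hB (fun i => x n' i - x n i)
    have hx : (fun i => x n i + (x n' i - x n i)) = x n' := by
      funext i
      have := hle i
      omega
    simp only at hsh
    rw [hx, hq] at hsh
    rcases hsh.compare hD h1' with ⟨l₃, -, h3⟩ | ⟨l₃, he3, h3⟩
    · have hreach : Run M (initial M (replicate n' false ++ replicate n' true)) (l n' ++ l₂) _ :=
        ((hpre n').run _).append hsh
      have h4 := hd _ _ _ _ _ hreach h3 rfl
      have h5 := (h3.count t).1
      simp only at h5
      have := hle t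
      push_cast [Nat.cast_sub this] at h5
      omega
    · rw [he3] at h1
      obtain ⟨c₁, g1, g2⟩ := h1.split
      have g1' := g1.shift hB (fun i => x n' i - x n i)
      simp only at g1'
      rw [hx, hq] at g1'
      have h6 := congrArg (fun c => c.count t) (g1'.det hD h1')
      simp only at h6
      omega
  · -- equal configurations
    push Not at hbd
    have hfin : Finite (∀ t : Fin k, Fin (x (e (r 0)) t + d + 1)) := inferInstance
    obtain ⟨i, j, hij, hxij⟩ := Finite.exists_ne_map_eq_of_infinite
      (fun j : ℕ => fun t : Fin k => (⟨x (e (r j)) t, Nat.lt_succ_of_le (hbd j t)⟩ :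
        Fin (x (e (r 0)) t + d + 1)))
    have hxx : x (e (r i)) = x (e (r j)) := by
      funext t
      have := congrFun hxij t
      exact Fin.mk.inj this
    clear hxij
    wlog hlt : i < j generalizing i j
    · exact this j i hij.symm hxx.symm (lt_of_le_of_ne (not_lt.1 hlt) hij.symm)
    set n := e (r i) with hn
    set n' := e (r j) with hn'
    have hnn : n < n' := he (r.strictMono hlt)
    obtain ⟨l₂, f, hf, h1, h2⟩ := acc' n n le_rfl
    have hq : q n = q n' := hqeq _ _
    rw [hxx, hq] at h1
    have h3 : replicate n' false ++ replicate n true ∈ langR c M := by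
      refine ⟨f, hf, l n' ++ l₂, ((hpre n').run _).append h1, ?_⟩
      rw [totalReversals_append (hreveq _ _) (hlasteq _ _)]
      exact h2
    rw [← hL, mem_Lang] at h3
    omega

/-! ### The machine with one counter -/

/-- The machine which adds one for every `a` and then subtracts one for every `b`, as long as the
counter is positive. -/
def pm : Machine 1 Bool Bool where
  start := false
  final := Set.univ
  move := fun q s z q' h v => h = true ∧
    ((q = false ∧ s = some false ∧ q' = false ∧ v = fun _ => 1) ∨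
      (s = some true ∧ q' = true ∧ v = fun i => if z i then 0 else -1))
  small := by
    rintro q s z q' h v ⟨-, ⟨-, -, -, rfl⟩ | ⟨-, -, rfl⟩⟩ i
    · exact Or.inr (Or.inr rfl)
    · by_cases hz : z i
      · simp [hz]
      · simp [hz]
  stop := by
    rintro q z q' h v ⟨-, ⟨-, h, -⟩ | ⟨h, -⟩⟩
    · exact absurd h (by simp)
    · exact absurd h (by simp)

theorem pm_step {c c' : Config 1 Bool Bool} {v : Fin 1 → ℤ} (h : Step pm c v c') :
    (∃ w, c.rest = false :: w ∧ c'.rest = w ∧ c.state = false ∧ c'.state = false ∧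
      v = (fun _ => 1) ∧ c'.count 0 = c.count 0 + 1) ∨
    (∃ w, c.rest = true :: w ∧ c'.rest = w ∧ c'.state = true ∧
      v = (fun i => if c.count i = 0 then 0 else -1) ∧ c'.count 0 = c.count 0 - 1) := by
  obtain ⟨h1, h2⟩ := h
  rcases h2 with ⟨⟨h2, -⟩, -⟩ | ⟨⟨-, h2⟩, h3⟩
  · exact absurd h2 (by simp)
  · rcases h2 with ⟨h4, h5, h6, rfl⟩ | ⟨h5, h6, rfl⟩
    · rw [List.head?_eq_some_iff] at h5
      obtain ⟨w, hw⟩ := h5
      refine Or.inl ⟨w, hw, ?_, h4, h6, rfl, ?_⟩
      · rw [h3, hw]
        rfl
      · have := h1 0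
        simp only at this
        omega
    · rw [List.head?_eq_some_iff] at h5
      obtain ⟨w, hw⟩ := h5
      refine Or.inr ⟨w, hw, ?_, h6, ?_, ?_⟩
      · rw [h3, hw]
        rfl
      · funext i
        simp
      · have := h1 0
        by_cases h0 : c.count 0 = 0
        · simp only [h0, decide_true, if_true] at this
          omega
        · simp only [h0, decide_false, Bool.false_eq_true, if_false] at this
          omega

theorem pm_lang {c c' : Config 1 Bool Bool} {l : List (Fin 1 → ℤ)} (h : Run pm c l c')
    (hr : c'.rest = []) (hc : c'.count 0 = 0) :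
    (∃ m, c.rest = replicate m true ∧ c.count 0 ≤ m) ∨
      (c.state = false ∧ ∃ n m, c.rest = replicate n false ++ replicate m true ∧
        n + c.count 0 ≤ m) := by
  induction h with
  | nil c => exact Or.inl ⟨0, hr, by omega⟩
  | cons s _ ih =>
    rcases pm_step s with ⟨w, h1, h2, h3, h4, -, h5⟩ | ⟨w, h1, h2, h3, -, h5⟩
    · right
      refine ⟨h3, ?_⟩
      rcases ih hr hc with ⟨m, h6, h7⟩ | ⟨-, n, m, h6, h7⟩
      · refine ⟨1, m, ?_, by omega⟩
        rw [h1, ← h2, h6]
        rfl
      · refine ⟨n + 1, m, ?_, by omega⟩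
        rw [h1, ← h2, h6]
        rfl
    · left
      rcases ih hr hc with ⟨m, h6, h7⟩ | ⟨h6, -⟩
      · refine ⟨m + 1, ?_, by omega⟩
        rw [h1, ← h2, h6]
        rfl
      · rw [h3] at h6
        exact absurd h6 (by simp)

theorem pm_det : Deterministic pm := by
  intro c v₁ c₁ v₂ c₂ h₁ h₂
  have key : v₁ = v₂ ∧ c₁.state = c₂.state ∧ c₁.rest = c₂.rest := by
    rcases pm_step h₁ with ⟨w, a1, a2, a3, a4, a5, a6⟩ | ⟨w, a1, a2, a3, a4, a5⟩ <;>
      rcases pm_step h₂ with ⟨w', b1, b2, b3, b4, b5, b6⟩ | ⟨w', b1, b2, b3, b4, b5⟩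
    · rw [a1] at b1
      exact ⟨a5.trans b5.symm, a4.trans b4.symm, by rw [a2, b2]; exact (List.cons.inj b1).2⟩
    · rw [a1] at b1
      exact absurd (List.cons.inj b1).1 (by simp)
    · rw [a1] at b1
      exact absurd (List.cons.inj b1).1 (by simp)
    · rw [a1] at b1
      exact ⟨a4.trans b4.symm, a3.trans b3.symm, by rw [a2, b2]; exact (List.cons.inj b1).2⟩
  obtain ⟨rfl, k2, k3⟩ := key
  refine ⟨rfl, ?_⟩
  obtain ⟨q₁, r₁, x₁⟩ := c₁
  obtain ⟨q₂, r₂, x₂⟩ := c₂
  simp only at k2 k3
  subst k2 k3
  congr 1
  funext i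
  have e1 := h₁.1 i
  have e2 := h₂.1 i
  simp only at e1 e2
  omega

theorem pm_length {c c' : Config 1 Bool Bool} {l : List (Fin 1 → ℤ)} (h : Run pm c l c') :
    c'.rest.length + l.length = c.rest.length := by
  induction h with
  | nil => simp
  | cons s _ ih =>
    rcases pm_step s with ⟨w, h1, h2, -⟩ | ⟨w, h1, h2, -⟩
    · rw [h1, List.length_cons, ← h2, List.length_cons]
      omega
    · rw [h1, List.length_cons, ← h2, List.length_cons]
      omega

theorem pm_qr : QuasiRealtime pm := by
  refine ⟨0, fun w l c l' c' _ h' e => ?_⟩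
  have := pm_length h'
  rw [e] at this
  omega

theorem pm_run_a : ∀ (n x : ℕ) (w : List Bool),
    Run pm ⟨false, replicate n false ++ w, fun _ => x⟩ (replicate n fun _ => 1)
      ⟨false, w, fun _ => x + n⟩ := by
  intro n
  induction n with
  | zero => intro x w; exact Run.nil _
  | succ n ih =>
    intro x w
    have h1 := ih (x + 1) w
    have e : (fun _ : Fin 1 => x + 1 + n) = fun _ => x + (n + 1) := by funext _; omega
    rw [e] at h1
    have s1 : Step pm ⟨false, replicate (n + 1) false ++ w, fun _ => x⟩ (fun _ => 1)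
        ⟨false, replicate n false ++ w, fun _ => x + 1⟩ :=
      ⟨fun i => by push_cast; ring, Or.inr ⟨⟨rfl, Or.inl ⟨rfl, rfl, rfl, rfl⟩⟩, rfl⟩⟩
    exact Run.cons s1 h1

theorem pm_run_b : ∀ (n : ℕ) (q : Bool) (w : List Bool),
    ∃ q', Run pm ⟨q, replicate n true ++ w, fun _ => n⟩ (replicate n fun _ => -1)
      ⟨q', w, fun _ => 0⟩ := by
  intro n
  induction n with
  | zero => intro q w; exact ⟨q, Run.nil _⟩
  | succ n ih =>
    intro q w
    obtain ⟨q', h1⟩ := ih true w
    have s1 : Step pm ⟨q, replicate (n + 1) true ++ w, fun _ => n + 1⟩ (fun _ => -1)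
        ⟨true, replicate n true ++ w, fun _ => n⟩ := by
      refine ⟨fun i => by push_cast; ring, Or.inr ⟨⟨rfl, Or.inr ⟨rfl, rfl, ?_⟩⟩, rfl⟩⟩
      funext i
      simp
    exact ⟨q', Run.cons s1 h1⟩

theorem pm_run_c : ∀ (n : ℕ) (q : Bool), ∃ q',
    Run pm ⟨q, replicate n true, fun _ => 0⟩ (replicate n fun _ => 0) ⟨q', [], fun _ => 0⟩ := by
  intro n
  induction n with
  | zero => intro q; exact ⟨q, Run.nil _⟩
  | succ n ih =>
    intro q
    obtain ⟨q', h1⟩ := ih true
    have s1 : Step pm ⟨q, replicate (n + 1) true, fun _ => 0⟩ (fun _ => 0)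
        ⟨true, replicate n true, fun _ => 0⟩ := by
      refine ⟨fun i => by simp, Or.inr ⟨⟨rfl, Or.inr ⟨rfl, rfl, ?_⟩⟩, rfl⟩⟩
      funext i
      simp
    exact ⟨q', Run.cons s1 h1⟩

theorem alt_replicate (n : ℕ) (a : ℤ) : alt (replicate n a) = 0 := by
  induction n with
  | zero => simp [alt]
  | succ n ih =>
    cases n with
    | zero => simp [alt]
    | succ n =>
      rw [List.replicate_succ, List.replicate_succ, alt_cons_cons, ← List.replicate_succ, ih]
      simp

theorem alt_append_le (m : List ℤ) (n : ℕ) (a : ℤ) :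
    alt (m ++ replicate n a) ≤ alt m + 1 := by
  induction m with
  | nil => simp [alt_replicate]
  | cons b m ih =>
    cases m with
    | nil =>
      cases n with
      | zero => simp [alt]
      | succ n =>
        simp only [List.cons_append, List.nil_append, List.replicate_succ]
        rw [alt_cons_cons, ← List.replicate_succ, alt_replicate]
        split_ifs <;> omega
    | cons d m =>
      simp only [List.cons_append] at ih ⊢
      rw [alt_cons_cons, alt_cons_cons]
      omega

theorem pm_langR {c : ℕ} (hc : 1 ≤ c) : langR c pm = Lang := by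
  ext w
  constructor
  · rintro ⟨q, -, l, h, -⟩
    rcases pm_lang h rfl rfl with ⟨m, h1, h2⟩ | ⟨-, n, m, h1, h2⟩
    · exact ⟨0, m, Nat.zero_le m, h1⟩
    · exact ⟨n, m, by omega, h1⟩
  · rintro ⟨n, m, hnm, rfl⟩
    obtain ⟨j, rfl⟩ : ∃ j, m = n + j := ⟨m - n, by omega⟩
    have h1 := pm_run_a n 0 (replicate (n + j) true)
    rw [Nat.zero_add] at h1
    obtain ⟨q₂, h2⟩ := pm_run_b n false (replicate j true)
    obtain ⟨q₃, h3⟩ := pm_run_c j q₂
    rw [List.replicate_append_replicate] at h2
    refine ⟨q₃, Set.mem_univ _, _, h1.append (h2.append h3), ?_⟩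
    refine le_trans ?_ hc
    unfold totalReversals
    rw [Fin.sum_univ_one]
    unfold reversals
    rw [List.map_append, List.map_append, List.map_replicate, List.map_replicate,
      List.map_replicate, List.filter_append, List.filter_append]
    have e1 : (replicate n (1 : ℤ)).filter (· ≠ 0) = replicate n 1 := by
      rw [List.filter_eq_self]
      intro a ha
      rw [(List.mem_replicate.1 ha).2]
      simp
    have e2 : (replicate n (-1 : ℤ)).filter (· ≠ 0) = replicate n (-1) := by
      rw [List.filter_eq_self]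
      intro a ha
      rw [(List.mem_replicate.1 ha).2]
      simp
    have e3 : (replicate j (0 : ℤ)).filter (· ≠ 0) = [] := by
      rw [List.filter_eq_nil_iff]
      intro a ha
      rw [(List.mem_replicate.1 ha).2]
      simp
    rw [e1, e2, e3, List.append_nil]
    have h4 := alt_append_le (replicate n 1) n (-1)
    rw [alt_replicate] at h4
    exact h4

/-! ### No reversals -/

/-- The machine which makes only those moves which do not change the counters. -/
def still (M : Machine k Q A) : Machine k Q A where
  start := M.start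
  final := M.final
  move := fun q s _ q' h v => v = 0 ∧ M.move q s (fun _ => true) q' h 0
  small := fun _ _ _ _ _ _ h _ => Or.inr (Or.inl (by rw [h.1]; rfl))
  stop := fun _ _ _ _ _ h => M.stop _ _ _ _ _ h.2

theorem still_step {M : Machine k Q A} {c c' : Config k Q A} {v : Fin k → ℤ}
    (h : Step (still M) c v c') : v = 0 ∧ c'.count = c.count ∧
      Step M ⟨c.state, c.rest, fun _ => 0⟩ v ⟨c'.state, c'.rest, fun _ => 0⟩ := by
  have h0 : v = 0 := by
    rcases h.2 with h | h
    · exact h.1.1
    · exact h.1.1
  subst h0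
  refine ⟨rfl, ?_, ?_⟩
  · funext i
    have := h.1 i
    simp only [Pi.zero_apply, add_zero] at this
    exact_mod_cast this
  · refine ⟨fun i => by simp, ?_⟩
    simp only [decide_true]
    rcases h.2 with h | h
    · exact Or.inl ⟨h.1.2, h.2⟩
    · exact Or.inr ⟨h.1.2, h.2⟩

theorem still_run {M : Machine k Q A} {c c' : Config k Q A} {l : List (Fin k → ℤ)}
    (h : Run (still M) c l c') :
    Run M ⟨c.state, c.rest, fun _ => 0⟩ l ⟨c'.state, c'.rest, fun _ => 0⟩ := by
  induction h with
  | nil => exact Run.nil _
  | cons s _ ih => exact Run.cons (still_step s).2.2 ih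

theorem still_det {M : Machine k Q A} (hM : Deterministic M) : Deterministic (still M) := by
  intro c v₁ c₁ v₂ c₂ h₁ h₂
  obtain ⟨a1, a2, a3⟩ := still_step h₁
  obtain ⟨b1, b2, b3⟩ := still_step h₂
  refine ⟨a1.trans b1.symm, ?_⟩
  have h3 := (hM _ _ _ _ _ a3 b3).2
  obtain ⟨q₁, r₁, x₁⟩ := c₁
  obtain ⟨q₂, r₂, x₂⟩ := c₂
  simp only at a2 b2 h3
  injection h3 with e1 e2 e3
  rw [e1, e2, a2, b2]

theorem still_blind (M : Machine k Q A) : PartiallyBlind (still M) :=
  fun _ _ _ _ _ _ _ h => h

theorem still_qr {M : Machine k Q A} (hM : QuasiRealtime M) : QuasiRealtime (still M) := by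
  obtain ⟨d, hd⟩ := hM
  exact ⟨d, fun w l c l' c' h h' e => hd w l _ l' _ (still_run h) (still_run h') e⟩

theorem run_still {M : Machine k Q A} {c c' : Config k Q A} {l : List (Fin k → ℤ)}
    (h : Run M c l c') (hl : ∀ v ∈ l, v = 0) (hc : ∀ i, c.count i = 0) :
    Run (still M) c l c' := by
  induction h with
  | nil => exact Run.nil _
  | @cons c c' c'' v l s _ ih =>
    have hv : v = 0 := hl v List.mem_cons_self
    subst hv
    have hc' : ∀ i, c'.count i = 0 := by
      intro i
      have := s.1 i
      rw [hc i] at this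
      simpa using this
    refine Run.cons ⟨s.1, ?_⟩ (ih (fun v hv => hl v (List.mem_cons_of_mem _ hv)) hc')
    have hz : (fun i => decide (c.count i = 0)) = fun _ => true := by
      funext i
      simp [hc i]
    rcases s.2 with h | h
    · rw [hz] at h
      exact Or.inl ⟨⟨rfl, h.1⟩, h.2⟩
    · rw [hz] at h
      exact Or.inr ⟨⟨rfl, h.1⟩, h.2⟩

theorem eq_of_alt : ∀ (m : List ℤ) (a : ℤ), alt (a :: m) = 0 → ∀ b ∈ m, b = a := by
  intro m
  induction m with
  | nil => simp
  | cons d m ih =>
    intro a h b hb
    rw [alt_cons_cons] at h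
    have h1 : a = d := by
      by_contra hne
      rw [if_pos hne] at h
      omega
    subst h1
    rcases List.mem_cons.1 hb with rfl | hb
    · rfl
    · exact ih a (by omega) b hb

theorem filter_eq_nil {l : List ℤ} (h : reversals l = 0) (hs : l.sum = 0) : ∀ v ∈ l, v = 0 := by
  have key : ∀ l : List ℤ, (l.filter (· ≠ 0)).sum = l.sum := by
    intro l
    induction l with
    | nil => rfl
    | cons a l ih =>
      by_cases ha : a = 0
      · subst ha
        rw [List.filter_cons_of_neg (by simp), ih]
        simp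
      · rw [List.filter_cons_of_pos (by simpa using ha), List.sum_cons, ih, List.sum_cons]
  have hsum := key l
  have h1 : alt (l.filter (· ≠ 0)) = 0 := h
  have h2 : l.filter (· ≠ 0) = [] := by
    rcases hl : l.filter (· ≠ 0) with _ | ⟨a, m⟩
    · exact hl
    · exfalso
      rw [hl] at h1
      have h3 := eq_of_alt m a h1
      have h4 : m = replicate m.length a := List.eq_replicate_iff.2 ⟨rfl, h3⟩
      have ha : a ≠ 0 := by
        have : a ∈ l.filter (· ≠ 0) := by rw [hl]; exact List.mem_cons_self
        rw [List.mem_filter] at this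
        simpa using this.2
      rw [hl, hs, List.sum_cons, h4, List.sum_replicate, nsmul_eq_mul] at hsum
      have h5 : (1 + (m.length : ℤ)) * a = 0 := by linarith
      rcases mul_eq_zero.1 h5 with h5 | h5
      · omega
      · exact ha h5
  intro v hv
  by_contra hne
  have : v ∈ l.filter (· ≠ 0) := List.mem_filter.2 ⟨hv, by simpa using hne⟩
  rw [h2] at this
  exact absurd this (by simp)

theorem Run.sum {M : Machine k Q A} {c c' : Config k Q A} {l : List (Fin k → ℤ)}
    (h : Run M c l c') (i : Fin k) :
    (c'.count i : ℤ) = c.count i + (l.map fun v => v i).sum := by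
  induction h with
  | nil => simp
  | cons s _ ih =>
    rw [List.map_cons, List.sum_cons, ih, s.1 i]
    ring

theorem langR_zero (M : Machine k Q A) : langR 0 (still M) = langR 0 M := by
  ext w
  constructor
  · rintro ⟨q, hq, l, h, hl⟩
    exact ⟨q, hq, l, still_run h, hl⟩
  · rintro ⟨q, hq, l, h, hl⟩
    refine ⟨q, hq, l, ?_, hl⟩
    refine run_still h (fun v hv => ?_) fun _ => rfl
    funext i
    have h1 : reversals (l.map fun v => v i) = 0 := by
      have h2 : totalReversals l = 0 := Nat.le_zero.1 hl
      exact (Finset.sum_eq_zero_iff.1 h2) i (Finset.mem_univ i)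
    have h2 := h.sum i
    refine filter_eq_nil h1 ?_ (v i) (List.mem_map.2 ⟨v, hv, rfl⟩)
    have e1 : (initial M w).count i = 0 := rfl
    rw [e1] at h2
    simp only at h2
    linarith

/-- For every natural number `c`, the classes `L_{Rc}(QR-DPBLIND)` and `L_{Rc}(QR-DCOUNTER)` are the
same (over all finite alphabets) if and only if `c = 0`. -/
theorem result (c : ℕ) : (∀ (A : Type) [Finite A], dpblind c A = dcounter c A) ↔ c = 0 := by
  constructor
  · intro h
    by_contra hc
    have h1 : Lang ∈ dcounter c Bool :=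
      ⟨1, Bool, inferInstance, pm, pm_det, pm_qr, (pm_langR (Nat.one_le_iff_ne_zero.2 hc)).symm⟩
    rw [← h Bool] at h1
    obtain ⟨k, Q, _, M, hB, hD, hR, hL⟩ := h1
    exact not_blind M hB hD hR c hL
  · rintro rfl A _
    ext L
    constructor
    · rintro ⟨k, Q, hQ, M, -, hD, hR, hL⟩
      exact ⟨k, Q, hQ, M, hD, hR, hL⟩
    · rintro ⟨k, Q, hQ, M, hD, hR, hL⟩
      exact ⟨k, Q, hQ, still M, still_blind M, still_det hD, still_qr hR,
        hL.trans (langR_zero M).symm⟩

end Pool.Agent.Results.MP_24384b_lc.EqualOnlyForZero
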